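import Pool.Agent.H28RB.Cubic
import Pool.Agent.H28RB.Low
import Pool.Agent.H28RB.Plus
set_option autoImplicit false

/-! The RB-index of the Albert algebra, of `M_3(F)` and of all cubic algebras over fields in which two and
three are invertible. -/

namespace Pool.Agent.Results.MP_d38294_al.AllCubicAlgebras
open Pool.Agent.R696.RB Pool.Agent.H28RB

universe u v

/-- `n` is the RB-index of the algebra `A` with product `m`: the least natural number with `R ^ n = 0` for every
Rota–Baxter operator `R` of weight zero. -/
def IsRBIndex (F : Type u) {A : Type v} [Field F] [AddCommGroup A] [Module F A] (m : A → A → A) (n : ℕ) :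
    Prop :=
  IsLeast {k : ℕ | ∀ R : A →ₗ[F] A, IsRotaBaxter m R → R ^ k = 0} n

/-- The product `(x y + y x) / 2` of the Albert algebra `H_3(O)`, the space `Herm F` of Hermitian `3 × 3`
matrices over the split octonions `Oct F`. -/
def albertMul {F : Type u} [Field F] (x y : Herm F) : Herm F :=
  ⟨(1 / 2 : F) • (x.1 * y.1 + y.1 * x.1), jmul_mem x.1 y.1 x.2 y.2⟩

/-- the unit -/
def eH {F : Type u} [Field F] : Herm F := (eA : Albert F)

/-- the trace -/
def tH {F : Type u} [Field F] : Herm F →ₗ[F] F := (tA : Albert F →ₗ[F] F)

/-- the operator of the library -/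
def RH {F : Type u} [Field F] : Herm F →ₗ[F] Herm F := (R0 : Albert F →ₗ[F] Albert F)

theorem albert_deg {F : Type u} [Field F] [Good F] : DegreeThree (F := F) albertMul eH tH := by
  have h : Deg3 F (eA : Albert F) tA := alb_deg3
  have hc : ∀ x y : Herm F, albertMul x y = albertMul y x := h.comm
  have hj : ∀ x y : Herm F, jp F albertMul x y = albertMul x y := by
    intro x y
    rw [jp, hc y x, ← two_smul F (albertMul x y), smul_smul, one_div, inv_mul_cancel₀ nz2, one_smul]
  refine ⟨fun x y z => add_mul (R := Albert F) x y z, fun x y z => mul_add (R := Albert F) x y z,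
    fun c x y => smul_mul_assoc (β := Albert F) c x y, fun c x y => mul_smul_comm (β := Albert F) c x y,
    h.one, fun x => (hc x eH).trans (h.one x), h.tone, fun a x => ?_⟩
  simp only [gen, nt, qt, hj]
  exact h.cubic a x

/-- an index five from a bound and an operator whose fourth power is not zero -/
theorem index_five {F : Type u} {A : Type v} [Field F] [AddCommGroup A] [Module F A] {m : A → A → A}
    (h5 : ∀ R : A →ₗ[F] A, IsRotaBaxter m R → R ^ 5 = 0) (R : A →ₗ[F] A) (hR : IsRotaBaxter m R) (z : A)
    (hz : R (R (R (R z))) ≠ 0) : IsRBIndex F m 5 := by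
  constructor
  · exact h5
  · intro n hn
    by_contra hlt
    have hlt' : n ≤ 4 := by omega
    have h1 := hn R hR
    have h2 : R ^ 4 = 0 := by
      rw [← Nat.sub_add_cancel hlt', pow_add, h1, mul_zero]
    apply hz
    have h3 := congrArg (fun f : A →ₗ[F] A => f z) h2
    simpa [pow_succ] using h3

/-- **Theorem.** Let `F` be any field of characteristic different from `2` and `3`.
1. The RB-index of the Albert algebra `H_3(O)` over `F` is `5`.
2. The RB-index of the associative algebra `M_3(F)` is `5`.
3. More generally `R ^ 5 = 0` for every Rota–Baxter operator `R` of weight zero on every unital `F`-algebra,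
of any dimension, commutative or not and associative or not, whose symmetrised product `(x y + y x) / 2`
satisfies a generic equation of degree three.  The Albert algebra and `M_3(F)` are such algebras. -/
theorem result (F : Type u) [Field F] (h2 : (2 : F) ≠ 0) (h3 : (3 : F) ≠ 0) :
    IsRBIndex F (albertMul (F := F)) 5 ∧
    IsRBIndex F (fun x y : Matrix (Fin 3) (Fin 3) F => x * y) 5 ∧
    (∀ (A : Type v) [AddCommGroup A] [Module F A] (m : A → A → A) (e : A) (T : A →ₗ[F] F),
      DegreeThree m e T → ∀ R : A →ₗ[F] A, IsRotaBaxter m R → R ^ 5 = 0) ∧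
    (∃ (e : Herm F) (T : Herm F →ₗ[F] F), DegreeThree albertMul e T) ∧
    DegreeThree (fun x y : Matrix (Fin 3) (Fin 3) F => x * y) 1 (Matrix.traceLinearMap (Fin 3) F F) := by
  have : Good F := ⟨h2, h3⟩
  refine ⟨?_, ?_, ?_, ⟨eH, tH, albert_deg⟩, mat_deg⟩
  · refine index_five (fun R hR => albert_deg.pow_five hR) RH (fun x y => R0_rb x y) (mk3 0 0 0 0 (dg 1 0) 0) ?_
    exact R0_four
  · exact index_five (fun R hR => mat_deg.pow_five hR) R1 R1_rb _ R1_four
  · intro A _ _ m e T h R hR
    exact h.pow_five hR

end Pool.Agent.Results.MP_d38294_al.AllCubicAlgebras
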